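import Pool.Agent.H34.FS.Targets

/-!
# Row DSV of hfs_modules: the pencil of a smooth pair is separable
-/

set_option autoImplicit false

open Finset Pool.Agent.H32.RQ Pool.Agent.H34.FQ Pool.Agent.H34.FS Pool.Agent.H13.RQ Polynomial

namespace Pool.Agent.H59.HFS.DSV

private theorem key (hSQR : T_SQR) {r : ℕ} (F : Fin 2 → Mon r → ℤ) (hF : Sm F)
    (M H : Matrix (Fin r) (Fin r) (AlgebraicClosure ℚ)) (hMs : ∀ i j, M i j = M j i)
    (hHs : ∀ i j, H i j = H j i) (α β γ δ : AlgebraicClosure ℚ) (hdet : α * δ - β * γ ≠ 0)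
    (hM : ∀ x j, ∑ l, M j l * x l = α * dq (cm (AlgebraicClosure ℚ) F 0) x j +
      β * dq (cm (AlgebraicClosure ℚ) F 1) x j)
    (hH : ∀ x j, ∑ l, H j l * x l = γ * dq (cm (AlgebraicClosure ℚ) F 0) x j +
      δ * dq (cm (AlgebraicClosure ℚ) F 1) x j) :
    ¬ (X : (AlgebraicClosure ℚ)[X]) ^ 2 ∣
      ((X : (AlgebraicClosure ℚ)[X]) • H.map C + M.map C).det := by
  intro hd
  obtain ⟨x, hx, h1, h2⟩ := hSQR (AlgebraicClosure ℚ) r M H hMs hHs hd
  have h3 : ∀ j, α * dq (cm (AlgebraicClosure ℚ) F 0) x j +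
      β * dq (cm (AlgebraicClosure ℚ) F 1) x j = 0 := fun j => by rw [← hM]; exact h1 j
  have e0 := Hs_euler (cm (AlgebraicClosure ℚ) F 0) x
  have e1 := Hs_euler (cm (AlgebraicClosure ℚ) F 1) x
  have h4 : α * (2 * qf (cm (AlgebraicClosure ℚ) F 0) x) +
      β * (2 * qf (cm (AlgebraicClosure ℚ) F 1) x) = 0 := by
    rw [← e0, ← e1, Finset.mul_sum, Finset.mul_sum, ← Finset.sum_add_distrib]
    refine Finset.sum_eq_zero fun j _ => ?_
    linear_combination x j * h3 j
  have h5 : γ * (2 * qf (cm (AlgebraicClosure ℚ) F 0) x) +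
      δ * (2 * qf (cm (AlgebraicClosure ℚ) F 1) x) = 0 := by
    rw [← e0, ← e1, Finset.mul_sum, Finset.mul_sum, ← Finset.sum_add_distrib, ← h2]
    refine Finset.sum_congr rfl fun j _ => ?_
    have h6 : ∑ l, x j * H j l * x l = x j * ∑ l, H j l * x l := by
      rw [Finset.mul_sum]
      exact Finset.sum_congr rfl fun l _ => mul_assoc _ _ _
    rw [h6, hH]
    ring
  have h7 : qf (cm (AlgebraicClosure ℚ) F 0) x = 0 := by
    have h8 : (α * δ - β * γ) * (2 * qf (cm (AlgebraicClosure ℚ) F 0) x) = 0 := by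
      linear_combination δ * h4 - β * h5
    exact (mul_eq_zero.1 ((mul_eq_zero.1 h8).resolve_left hdet)).resolve_left two_ne_zero
  have h9 : qf (cm (AlgebraicClosure ℚ) F 1) x = 0 := by
    have h8 : (α * δ - β * γ) * (2 * qf (cm (AlgebraicClosure ℚ) F 1) x) = 0 := by
      linear_combination α * h5 - γ * h4
    exact (mul_eq_zero.1 ((mul_eq_zero.1 h8).resolve_left hdet)).resolve_left two_ne_zero
  have h10 := hF x hx (fun i => by fin_cases i; exacts [h7, h9])
  rw [LinearIndependent.pair_iff] at h10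
  obtain ⟨ha, hb⟩ := h10 α β (funext h3)
  apply hdet
  rw [ha, hb]
  ring

private theorem dq_lin {R : Type} [CommRing R] {s : ℕ} (f g : Mon s → R) (k : R) (x : Fin s → R)
    (j : Fin s) : dq (fun p => f p + k * g p) x j = dq f x j + k * dq g x j := by
  unfold dq
  rw [Finset.mul_sum, ← Finset.sum_add_distrib]
  refine Finset.sum_congr rfl fun p _ => ?_
  ring

private theorem Hs_lin {R : Type} [CommRing R] {s : ℕ} (f g : Mon s → R) (k : R)
    (j l : Fin s) : Hs (fun p => f p + k * g p) j l = Hs f j l + k * Hs g j l := by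
  unfold Hs
  rw [Finset.mul_sum, ← Finset.sum_add_distrib]
  refine Finset.sum_congr rfl fun p _ => ?_
  ring

theorem pf_DSV (hSQR : T_SQR) : T_DSV := by
  intro r F hF
  obtain ⟨f, hf⟩ : ∃ f : Fin 2 → Mon r → AlgebraicClosure ℚ, f = cm (AlgebraicClosure ℚ) F :=
    ⟨_, rfl⟩
  -- the choice of `k`
  obtain ⟨P, hP⟩ : ∃ P : (AlgebraicClosure ℚ)[X], P =
    ((X : (AlgebraicClosure ℚ)[X]) • (Hs (f 0)).map C + (Hs (f 1)).map C).det := ⟨_, rfl⟩
  have hP0 : P ≠ 0 := by
    intro h0
    refine key hSQR F hF (Hs (f 1)) (Hs (f 0)) (Hs_symm _) (Hs_symm _) 0 1 1 0 (by norm_num)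
      (fun x j => ?_) (fun x j => ?_) ?_
    · rw [Hs_mulVec, hf]; ring
    · rw [Hs_mulVec, hf]; ring
    · rw [← hP, h0]
      exact dvd_zero _
  obtain ⟨k, hk⟩ : ∃ k : ℤ, P.eval (k : AlgebraicClosure ℚ) ≠ 0 := by
    by_contra hcon
    push Not at hcon
    refine hP0 (Polynomial.eq_zero_of_infinite_isRoot P ?_)
    refine Set.Infinite.mono ?_ (Set.infinite_range_of_injective
      (Int.cast_injective (α := AlgebraicClosure ℚ)))
    rintro _ ⟨k, rfl⟩
    exact hcon k
  have hk2 : (Hs (fun p => f 1 p + (k : AlgebraicClosure ℚ) * f 0 p)).det ≠ 0 := by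
    have h1 : P.eval (k : AlgebraicClosure ℚ) =
        (Hs (fun p => f 1 p + (k : AlgebraicClosure ℚ) * f 0 p)).det := by
      rw [hP, ← Polynomial.coe_evalRingHom, RingHom.map_det]
      congr 1
      ext1 i j
      rw [Hs_lin]
      change Polynomial.eval (k : AlgebraicClosure ℚ) (X * C (Hs (f 0) i j) + C (Hs (f 1) i j)) = _
      rw [Polynomial.eval_add, Polynomial.eval_mul, Polynomial.eval_X, Polynomial.eval_C,
        Polynomial.eval_C]
      ring
    rw [← h1]
    exact hk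
  have hm0 : ∀ p, algebraMap ℚ (AlgebraicClosure ℚ) (F 0 p : ℚ) = f 0 p := by
    intro p
    rw [hf, map_intCast]
    rfl
  have hm1 : ∀ p, algebraMap ℚ (AlgebraicClosure ℚ) ((F 1 p : ℚ) + k * F 0 p) =
      f 1 p + (k : AlgebraicClosure ℚ) * f 0 p := by
    intro p
    rw [hf, map_add, map_mul, map_intCast, map_intCast, map_intCast]
    rfl
  refine ⟨k, fun h0 => hk2 ?_, ?_⟩
  · have h1 := congrArg (algebraMap ℚ (AlgebraicClosure ℚ)) h0
    rw [RingHom.map_det, map_zero] at h1
    rw [← h1]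
    congr 1
    ext1 i j
    change _ = algebraMap ℚ (AlgebraicClosure ℚ) (Hs (fun p => (F 1 p : ℚ) + k * F 0 p) i j)
    rw [Hs_map]
    exact congrArg (fun g => Hs g i j) (funext fun p => (hm1 p).symm)
  · obtain ⟨Q, hQ⟩ : ∃ Q : ℚ[X], Q =
      (pen ![fun p => (F 0 p : ℚ), fun p => (F 1 p : ℚ) + k * F 0 p]).det := ⟨_, rfl⟩
    have hQm : Q.map (algebraMap ℚ (AlgebraicClosure ℚ)) =
        (pen ![f 0, fun p => f 1 p + (k : AlgebraicClosure ℚ) * f 0 p]).det := by
      rw [hQ, chi_map]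
      congr 2
      funext i p
      fin_cases i
      · exact hm0 p
      · exact hm1 p
    rw [← hQ]
    refine (Polynomial.isCoprime_iff_aeval_ne_zero_of_isAlgClosed ℚ (AlgebraicClosure ℚ) Q
      (derivative Q)).2 fun a => ?_
    by_contra hcon
    push Not at hcon
    obtain ⟨ha, hb⟩ := hcon
    obtain ⟨R, hR⟩ : ∃ R : (AlgebraicClosure ℚ)[X], R =
      Q.map (algebraMap ℚ (AlgebraicClosure ℚ)) := ⟨_, rfl⟩
    have ha' : R.eval a = 0 := by
      rw [hR, Polynomial.eval_map_algebraMap]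
      exact ha
    have hb' : (derivative R).eval a = 0 := by
      rw [hR, Polynomial.derivative_map, Polynomial.eval_map_algebraMap]
      exact hb
    have hd : (X : (AlgebraicClosure ℚ)[X]) ^ 2 ∣ R.comp (X + C a) := by
      rw [← Polynomial.taylor_apply, Polynomial.X_pow_dvd_iff]
      intro d hd
      interval_cases d
      · rw [Polynomial.taylor_coeff_zero]
        exact ha'
      · rw [Polynomial.taylor_coeff_one]
        exact hb'
    obtain ⟨g, hg⟩ : ∃ g : Mon r → AlgebraicClosure ℚ,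
      g = fun p => f 1 p + (k : AlgebraicClosure ℚ) * f 0 p := ⟨_, rfl⟩
    have hR2 : R.comp (X + C a) = ((X : (AlgebraicClosure ℚ)[X]) • (Hs g).map C +
        (Matrix.of fun i j => Hs (f 0) i j + a * Hs g i j).map C).det := by
      rw [hR, hQm, ← Polynomial.coe_compRingHom_apply, RingHom.map_det]
      congr 1
      ext1 i j
      change (pen ![f 0, fun p => f 1 p + (k : AlgebraicClosure ℚ) * f 0 p] i j).comp (X + C a) =
        X * C (Hs g i j) + C (Hs (f 0) i j + a * Hs g i j)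
      rw [pen_apply]
      change (X * C (Hs (fun p => f 1 p + (k : AlgebraicClosure ℚ) * f 0 p) i j) +
        C (Hs (f 0) i j)).comp (X + C a) = _
      rw [← hg, Polynomial.add_comp, Polynomial.mul_comp, Polynomial.X_comp, Polynomial.C_comp,
        Polynomial.C_comp, C_add, C_mul]
      ring
    rw [hR2] at hd
    have hdg : ∀ x j, dq g x j = dq (f 1) x j + (k : AlgebraicClosure ℚ) * dq (f 0) x j := by
      intro x j
      rw [hg, dq_lin]
    refine key hSQR F hF (Matrix.of fun i j => Hs (f 0) i j + a * Hs g i j) (Hs g)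
      (fun i j => ?_) (Hs_symm _) (1 + a * k) a k 1 ?_ (fun x j => ?_) (fun x j => ?_) hd
    · rw [Matrix.of_apply, Matrix.of_apply, Hs_symm (f 0) i j, Hs_symm g i j]
    · have : (1 + a * (k : AlgebraicClosure ℚ)) * 1 - a * (k : AlgebraicClosure ℚ) = 1 := by ring
      rw [this]
      exact one_ne_zero
    · have h1 : ∀ l, (Matrix.of fun i j => Hs (f 0) i j + a * Hs g i j) j l * x l =
          Hs (f 0) j l * x l + a * (Hs g j l * x l) := by
        intro l
        rw [Matrix.of_apply]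
        ring
      rw [Finset.sum_congr rfl fun l _ => h1 l, Finset.sum_add_distrib, ← Finset.mul_sum,
        Hs_mulVec, Hs_mulVec, hdg, hf]
      ring
    · rw [Hs_mulVec, hdg, hf]
      ring

end Pool.Agent.H59.HFS.DSV
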