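import Pool.Agent.H34.FS.Targets

/-!
# Row HPL of hfs_modules: almost all locally soluble pairs have a small zero
-/

set_option autoImplicit false

open Finset Pool.Agent.H32.RQ Pool.Agent.H34.FQ Pool.Agent.H34.FS

namespace Pool.Agent.H59.HFS.HPL

private theorem card_cover {α ι : Type} [DecidableEq α] (S : Finset α) (P A B : α → Prop)
    (C : ι → α → Prop) [DecidablePred P] [DecidablePred A] [DecidablePred B]
    [∀ i, DecidablePred (C i)] (I : Finset ι) (h : ∀ x ∈ S, P x → A x ∨ (∃ i ∈ I, C i x) ∨ B x) :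
    ((S.filter P).card : ℝ) ≤ ((S.filter A).card : ℝ) + (∑ i ∈ I, ((S.filter (C i)).card : ℝ)) +
      ((S.filter B).card : ℝ) := by
  have h1 : S.filter P ⊆ (S.filter A ∪ I.biUnion fun i => S.filter (C i)) ∪ S.filter B := by
    intro x hx
    rw [mem_filter] at hx
    rcases h x hx.1 hx.2 with h | ⟨i, hi, h⟩ | h
    · exact mem_union_left _ (mem_union_left _ (mem_filter.2 ⟨hx.1, h⟩))
    · exact mem_union_left _ (mem_union_right _
        (mem_biUnion.2 ⟨i, hi, mem_filter.2 ⟨hx.1, h⟩⟩))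
    · exact mem_union_right _ (mem_filter.2 ⟨hx.1, h⟩)
  have h2 := card_le_card h1
  have h4 := card_union_le (S.filter A ∪ I.biUnion fun i => S.filter (C i)) (S.filter B)
  have h5 := card_union_le (S.filter A) (I.biUnion fun i => S.filter (C i))
  have h6 : (I.biUnion fun i => S.filter (C i)).card ≤ ∑ i ∈ I, (S.filter (C i)).card :=
    card_biUnion_le
  have h7 : (S.filter P).card ≤ (S.filter A).card + (∑ i ∈ I, (S.filter (C i)).card) +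
      (S.filter B).card := by omega
  exact_mod_cast h7

theorem pf_HPL (hMNL : T_MNL) (hAL1 : T_AL1) (hTBL : T_TBL) (hLPL : T_LPL) : T_HPL := by
  classical
  intro r F hr hF ε hε
  obtain ⟨C₂, hC₂, hQ⟩ := hAL1 r hr
  -- the choice of `w₀`
  obtain ⟨w₁, hw₁⟩ := exists_nat_ge (4 * (2 : ℝ) ^ (2 * (r + 1)) * C₂ / ε)
  obtain ⟨w₀, hw₀⟩ : ∃ w₀ : ℕ, w₀ = w₁ + 1 := ⟨_, rfl⟩
  have hw1 : 1 ≤ w₀ := by omega
  have hw1' : (1 : ℝ) ≤ (w₀ : ℝ) := by exact_mod_cast hw1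
  have hw2 : 4 * (2 : ℝ) ^ (2 * (r + 1)) * C₂ ≤ ε * (w₀ : ℝ) ^ 2 := by
    have h1 : 4 * (2 : ℝ) ^ (2 * (r + 1)) * C₂ ≤ w₁ * ε := by
      rwa [div_le_iff₀ hε] at hw₁
    have h2 : (w₁ : ℝ) ≤ (w₀ : ℝ) ^ 2 := by
      have : (w₁ : ℝ) ≤ w₀ := by
        have : w₁ ≤ w₀ := by omega
        exact_mod_cast this
      nlinarith
    nlinarith
  -- the choice of `t`
  obtain ⟨δ, hδdef⟩ : ∃ δ : ℝ, δ = ε / (4 * ((w₀ : ℝ) + 1)) := ⟨_, rfl⟩
  have hδ : 0 < δ := by rw [hδdef]; positivity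
  have hL : ∀ p : ℕ, ∃ t₁ : ℕ, ∀ t : ℕ, t₁ ≤ t → ∃ A₀ : ℕ, ∀ A : ℕ, A₀ ≤ A →
      p.Prime → (((bL r A).filter fun L => LP (gg F L) ∧ ¬ RL F t p L).card : ℝ) ≤
        δ * (2 * (A : ℝ) + 1) ^ (2 * (r + 1)) := by
    intro p
    by_cases hp : p.Prime
    · have : Fact p.Prime := ⟨hp⟩
      obtain ⟨t₁, ht₁⟩ := hLPL r F p δ (by omega) hF hδ
      refine ⟨t₁, fun t ht => ?_⟩
      obtain ⟨A₀, hA₀⟩ := ht₁ t ht
      refine ⟨A₀, fun A hA _ => le_trans ?_ (hA₀ A hA)⟩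
      refine Nat.cast_le.2 (card_le_card ?_)
      intro L hL
      rw [mem_filter] at hL ⊢
      exact ⟨hL.1, hL.2.1 p, hL.2.2⟩
    · exact ⟨0, fun t _ => ⟨0, fun A _ h => absurd h hp⟩⟩
  choose t1 ht1 using hL
  obtain ⟨t, ht⟩ : ∃ t : ℕ, t = ∑ p ∈ range (w₀ + 1), t1 p := ⟨_, rfl⟩
  have htle : ∀ p : ℕ, p ≤ w₀ → t1 p ≤ t := by
    intro p hp
    rw [ht]
    exact Finset.single_le_sum (f := fun p => t1 p) (fun _ _ => Nat.zero_le _)
        (mem_range.2 (by omega))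
  have hL2 : ∀ p : ℕ, ∃ A₀ : ℕ, p ≤ w₀ → ∀ A : ℕ, A₀ ≤ A →
      p.Prime → (((bL r A).filter fun L => LP (gg F L) ∧ ¬ RL F t p L).card : ℝ) ≤
        δ * (2 * (A : ℝ) + 1) ^ (2 * (r + 1)) := by
    intro p
    by_cases hp : p ≤ w₀
    · obtain ⟨A₀, hA₀⟩ := ht1 p t (htle p hp)
      exact ⟨A₀, fun _ => hA₀⟩
    · exact ⟨0, fun h => absurd h hp⟩
  choose A2 hA2 using hL2
  obtain ⟨W₁, K, A₁, hW, hWp, hA₁⟩ := hMNL r F t w₀ hr (ε / 4) (by positivity)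
  refine ⟨K, A₁ + (∑ p ∈ range (w₀ + 1), A2 p) + W₁, fun A hA => ?_⟩
  have hA2le : ∀ p : ℕ, p ≤ w₀ → A2 p ≤ ∑ p ∈ range (w₀ + 1), A2 p := by
    intro p hp
    exact Finset.single_le_sum (f := fun p => A2 p) (fun _ _ => Nat.zero_le _)
        (mem_range.2 (by omega))
  obtain ⟨X, hX⟩ : ∃ X : ℝ, X = (2 * (A : ℝ) + 1) ^ (2 * (r + 1)) := ⟨_, rfl⟩
  have hX0 : 0 ≤ X := by rw [hX]; positivity
  rw [← hX]
  -- the residues
  obtain ⟨E, hE⟩ : ∃ E : Finset (Fin 2 → Fin (r + 1) → ZMod W₁), E =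
    Finset.univ.filter fun L : Fin 2 → Fin (r + 1) → ZMod W₁ =>
      2 * aL F W₁ L < W₁ ^ (r - 2) := ⟨_, rfl⟩
  have hE1 : (E.card : ℝ) * (w₀ : ℝ) ^ 2 ≤ C₂ * (W₁ : ℝ) ^ (2 * (r + 1)) := by
    rw [hE]
    exact hQ F W₁ w₀ hw1 hWp
  have hcov := card_cover (bL r A) (fun L => LP (gg F L) ∧ ¬ SZF F K A L)
    (fun L => cL (ZMod W₁) L ∈ E)
    (fun L => (∀ p : ℕ, p.Prime → p ≤ w₀ → RL F t p L) ∧
      W₁ ^ (r - 2) ≤ 2 * aL F W₁ (cL (ZMod W₁) L) ∧ ¬ SZF F K A L)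
    (fun (p : ℕ) L => LP (gg F L) ∧ ¬ RL F t p L)
    ((range (w₀ + 1)).filter Nat.Prime) (by
      rintro L _ ⟨h1, h3⟩
      by_cases hp : ∀ p : ℕ, p.Prime → p ≤ w₀ → RL F t p L
      · by_cases he : cL (ZMod W₁) L ∈ E
        · exact Or.inl he
        refine Or.inr (Or.inr ⟨hp, ?_, h3⟩)
        rw [hE, mem_filter] at he
        by_contra hlt
        exact he ⟨mem_univ _, by omega⟩
      · push Not at hp
        obtain ⟨p, hp1, hp2, hp3⟩ := hp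
        exact Or.inr (Or.inl ⟨p, mem_filter.2 ⟨mem_range.2 (by omega), hp1⟩, h1, hp3⟩))
  have b2 : ∀ p ∈ (range (w₀ + 1)).filter Nat.Prime,
      (((bL r A).filter fun L => LP (gg F L) ∧ ¬ RL F t p L).card : ℝ) ≤ δ * X := by
    intro p hp
    rw [mem_filter, mem_range] at hp
    have hp1 : p ≤ w₀ := by have := hp.1; omega
    have h3 := hA2le p hp1
    have h4 := hA2 p hp1 A (by omega) hp.2
    rw [← hX] at h4
    exact h4
  have b2' : (∑ p ∈ (range (w₀ + 1)).filter Nat.Prime,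
      (((bL r A).filter fun L => LP (gg F L) ∧ ¬ RL F t p L).card : ℝ)) ≤ ε / 4 * X := by
    refine (Finset.sum_le_card_nsmul _ _ _ b2).trans ?_
    rw [nsmul_eq_mul]
    have hc : ((((range (w₀ + 1)).filter Nat.Prime).card : ℕ) : ℝ) ≤ (w₀ : ℝ) + 1 := by
      have : ((range (w₀ + 1)).filter Nat.Prime).card ≤ w₀ + 1 :=
        (card_filter_le _ _).trans (by rw [card_range])
      exact_mod_cast this
    refine (mul_le_mul_of_nonneg_right hc (mul_nonneg hδ.le hX0)).trans ?_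
    refine le_of_eq ?_
    rw [hδdef]
    field_simp
  have b3 : (((bL r A).filter fun L => cL (ZMod W₁) L ∈ E).card : ℝ) ≤ ε / 4 * X := by
    have h := (hTBL r A).2 W₁ E (by omega)
    have h' : ((((bL r A).filter fun L => cL (ZMod W₁) L ∈ E).card : ℕ) : ℝ) *
        (W₁ : ℝ) ^ (2 * (r + 1)) ≤ 2 ^ (2 * (r + 1)) * X * E.card := by
      rw [hX]
      exact_mod_cast h
    have hW0 : (0 : ℝ) < (W₁ : ℝ) ^ (2 * (r + 1)) := by
      have : 0 < W₁ := Nat.pos_of_ne_zero (NeZero.ne W₁)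
      positivity
    have hw0 : (0 : ℝ) < (w₀ : ℝ) ^ 2 := by positivity
    obtain ⟨n, hn⟩ : ∃ n : ℝ, n = (((bL r A).filter fun L => cL (ZMod W₁) L ∈ E).card : ℝ) :=
      ⟨_, rfl⟩
    rw [← hn] at h' ⊢
    have h1 : n * (w₀ : ℝ) ^ 2 * (W₁ : ℝ) ^ (2 * (r + 1)) ≤
        2 ^ (2 * (r + 1)) * X * C₂ * (W₁ : ℝ) ^ (2 * (r + 1)) := by
      calc n * (w₀ : ℝ) ^ 2 * (W₁ : ℝ) ^ (2 * (r + 1)) =
          n * (W₁ : ℝ) ^ (2 * (r + 1)) * (w₀ : ℝ) ^ 2 := by ring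
        _ ≤ 2 ^ (2 * (r + 1)) * X * E.card * (w₀ : ℝ) ^ 2 := by gcongr
        _ = 2 ^ (2 * (r + 1)) * X * (E.card * (w₀ : ℝ) ^ 2) := by ring
        _ ≤ 2 ^ (2 * (r + 1)) * X * (C₂ * (W₁ : ℝ) ^ (2 * (r + 1))) := by gcongr
        _ = _ := by ring
    have h2 := le_of_mul_le_mul_right h1 hW0
    have h3 : n * (w₀ : ℝ) ^ 2 ≤ ε / 4 * X * (w₀ : ℝ) ^ 2 := by
      refine h2.trans ?_
      have h4 := mul_le_mul_of_nonneg_left hw2 (show (0 : ℝ) ≤ X / 4 by positivity)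
      linarith
    exact le_of_mul_le_mul_right h3 hw0
  have b4 := hA₁ A (by omega)
  rw [← hX] at b4
  have e1 : (((bL r A).filter fun L => LP (gg F L) ∧ ¬ SZF F K A L).card : ℝ) ≤
      ε / 4 * X + ε / 4 * X + ε / 4 * X :=
    hcov.trans (add_le_add (add_le_add b3 b2') b4)
  have h9 : 0 ≤ ε / 4 * X := by positivity
  linarith only [e1, h9]

end Pool.Agent.H59.HFS.HPL
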